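import Pool.Agent.Q240.LD.Main

/-!
# MP_4467b5_nt: the density hypothesis for left zeros of derivatives of zeta outside dense clusters

Let `F` be any function `P(D) ζ (s) + ∑ c(l) exp (-l s)` (`D = d/ds`, `P` a nonzero polynomial, a finite sum
with real `l`), for instance a derivative of zeta, or `ζ - a`. We prove unconditionally the analogue of the
density hypothesis, with the exponent `2 α + ε` for the strip `0 ≤ Re s ≤ α`, for those zeros of `F` near
which, and at most `δ` further to the right, there are at most `η log T` zeros of `F`.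
-/

set_option autoImplicit false

open Polynomial

namespace Pool.Agent.Results.MP_4467b5_nt.IsolatedLeftZeros

/-- `P(D) ζ (s) + ∑ c(l) exp (-l s)`, where `D = d/ds` and `l` runs over the finite set `S` of reals. -/
noncomputable def F (P : ℂ[X]) (S : Finset ℝ) (c : ℝ → ℂ) (s : ℂ) : ℂ :=
  ∑ i ∈ Finset.range (P.natDegree + 1), P.coeff i * iteratedDeriv i riemannZeta s +
    ∑ l ∈ S, c l * Complex.exp (-(l * s))

/-- The number of the elements of the set `A`, counted with the multiplicity as zeros of `f`. -/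
noncomputable def count (f : ℂ → ℂ) (A : Set ℂ) : ℕ := ∑ᶠ s ∈ A, analyticOrderNatAt f s

/-- The zeros of `f` with `0 ≤ Re s ≤ α` and `0 < Im s ≤ T`. -/
def zeros (f : ℂ → ℂ) (α T : ℝ) : Set ℂ := {s : ℂ | f s = 0 ∧ 0 ≤ s.re ∧ s.re ≤ α ∧ 0 < s.im ∧ s.im ≤ T}

/-- The zeros `s` of `f` with `0 ≤ Re s ≤ a` and `|Im s - t| ≤ h`. -/
def near (f : ℂ → ℂ) (a t h : ℝ) : Set ℂ := {s : ℂ | f s = 0 ∧ 0 ≤ s.re ∧ s.re ≤ a ∧ |s.im - t| ≤ h}

/-- The sets of zeros that are counted are finite. -/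
theorem zeros_finite (P : ℂ[X]) (S : Finset ℝ) (c : ℝ → ℂ) (a T : ℝ) (hP : P ≠ 0) (ha : a < 1) :
    (zeros (F P S c) a T).Finite :=
  Q240.LD.zs_fin P hP S c a T ha

/-- The sets of zeros that are counted are finite. -/
theorem near_finite (P : ℂ[X]) (S : Finset ℝ) (c : ℝ → ℂ) (a t h : ℝ) (hP : P ≠ 0) (ha : a < 1) :
    (near (F P S c) a t h).Finite := by
  refine (Q240.SH.fin_compact P hP S c (Set.Icc 0 a ×ℂ Set.Icc (t - h) (t + h))
    (isCompact_Icc.reProdIm isCompact_Icc) ?_).subset ?_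
  · intro h1
    rw [Complex.mem_reProdIm] at h1
    have := h1.1.2
    rw [Complex.one_re] at this
    linarith
  · rintro s ⟨h1, h2, h3, h4⟩
    have h4' := abs_le.1 h4
    refine ⟨?_, h1⟩
    rw [Complex.mem_reProdIm]
    exact ⟨⟨h2, h3⟩, by linarith, by linarith⟩

theorem count_eq (f : ℂ → ℂ) {A : Set ℂ} (hA : A.Finite) :
    (count f A : ℝ) = ∑ s ∈ hA.toFinset, (analyticOrderNatAt f s : ℝ) := by
  unfold count
  rw [finsum_mem_eq_finite_toFinset_sum _ hA]
  push_cast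
  rfl

/-- Density hypothesis for the left zeros of `F` outside dense clusters. -/
theorem result (P : ℂ[X]) (S : Finset ℝ) (c : ℝ → ℂ) (hP : P ≠ 0) (ε δ : ℝ) (hε : 0 < ε) (hδ : 0 < δ)
    (hδ1 : δ ≤ 1 / 4) :
    ∃ η C K T₀ : ℝ, 0 < η ∧ 0 < C ∧ 0 < K ∧ ∀ T : ℝ, T₀ ≤ T → ∀ α : ℝ, 0 ≤ α → α ≤ 1 / 2 →
      (count (F P S c) {s : ℂ | s ∈ zeros (F P S c) α T ∧
        (count (F P S c) (near (F P S c) (s.re + δ) s.im C) : ℝ) ≤ η * Real.log T} : ℝ) ≤
        K * T ^ (2 * α + ε) := by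
  classical
  obtain ⟨η, C, K, T₀, hη, hC, hK, -, h⟩ := Q240.LD.iso_main P hP S c ε δ hε hδ hδ1
  refine ⟨η, C, K, T₀, hη, hC, hK, fun T hT α hα0 hα1 => ?_⟩
  have hfin : {s : ℂ | s ∈ zeros (F P S c) α T ∧
      (count (F P S c) (near (F P S c) (s.re + δ) s.im C) : ℝ) ≤ η * Real.log T}.Finite :=
    (zeros_finite P S c α T hP (by linarith)).subset fun s hs => hs.1
  have h1 := h T hT α hα0 hα1 hfin.toFinset (fun z hz => by
    rw [Set.Finite.mem_toFinset] at hz
    exact hz)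
  rw [count_eq (F P S c) hfin]
  exact h1

end Pool.Agent.Results.MP_4467b5_nt.IsolatedLeftZeros
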