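import Pool.Agent.Q240.LD.Zeta

/-!
# MP_4467b5_nt: the density hypothesis and zeros to the left of the critical line

Let `F` be any function `P(D) ζ (s) + ∑ c(l) exp (-l s)` (`D = d/ds`, `P` a nonzero polynomial, a finite sum
with real `l`), for instance a derivative of zeta, or `ζ - a`. Two such functions `F, G` have comparable
numbers of zeros in the strips `0 ≤ Re s ≤ α` to the left of the critical line, up to a factor `O(log T)` and
arbitrarily small changes of `α`. Hence every zero density estimate with a continuous exponent holds for one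
of them if and only if it holds for the other one; the density hypothesis for zeta is the estimate with the
exponent `2 α` for any single one of them.
-/

set_option autoImplicit false

open Polynomial

namespace Pool.Agent.Results.MP_4467b5_nt.LeftDensity

/-- `N(σ, T)`: the number of zeros of zeta, with multiplicity, with `Re s ≥ σ` and `0 < Im s ≤ T`. -/
noncomputable def N (σ T : ℝ) : ℕ :=
  ∑ᶠ s ∈ {s : ℂ | riemannZeta s = 0 ∧ σ ≤ s.re ∧ 0 < s.im ∧ s.im ≤ T}, analyticOrderNatAt riemannZeta s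

/-- The density hypothesis (Q1). -/
def DensityHypothesis : Prop := ∀ ε : ℝ, 0 < ε → ∃ C T₀ : ℝ, 0 < C ∧ 0 < T₀ ∧ ∀ T : ℝ, T₀ ≤ T →
  ∀ σ : ℝ, 1 / 2 ≤ σ → σ ≤ 1 → (N σ T : ℝ) ≤ C * T ^ (2 * (1 - σ) + ε)

/-- `P(D) ζ (s) + ∑ c(l) exp (-l s)`, where `D = d/ds` and `l` runs over the finite set `S` of reals. -/
noncomputable def F (P : ℂ[X]) (S : Finset ℝ) (c : ℝ → ℂ) (s : ℂ) : ℂ :=
  ∑ i ∈ Finset.range (P.natDegree + 1), P.coeff i * iteratedDeriv i riemannZeta s +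
    ∑ l ∈ S, c l * Complex.exp (-(l * s))

/-- The number of zeros of `f`, with multiplicity, with `0 ≤ Re s ≤ a` and `0 < Im s ≤ T`. -/
noncomputable def left (f : ℂ → ℂ) (a T : ℝ) : ℕ :=
  ∑ᶠ s ∈ {s : ℂ | f s = 0 ∧ 0 ≤ s.re ∧ s.re ≤ a ∧ 0 < s.im ∧ s.im ≤ T}, analyticOrderNatAt f s

/-- The density estimate with exponent `A` for the zeros of `f` in the strips `0 ≤ Re s ≤ α`,
uniformly for `0 ≤ α ≤ 1/2`. -/
def Estimate (f : ℂ → ℂ) (A : ℝ → ℝ) : Prop := ∀ ε : ℝ, 0 < ε → ∃ C T₀ : ℝ, ∀ T : ℝ, T₀ ≤ T →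
  ∀ α : ℝ, 0 ≤ α → α ≤ 1 / 2 → (left f α T : ℝ) ≤ C * T ^ (A α + ε)

/-- The sets of zeros that are counted are finite. -/
theorem finite_left (P : ℂ[X]) (S : Finset ℝ) (c : ℝ → ℂ) (a T : ℝ) (hP : P ≠ 0) (ha : a < 1) :
    {s : ℂ | F P S c s = 0 ∧ 0 ≤ s.re ∧ s.re ≤ a ∧ 0 < s.im ∧ s.im ≤ T}.Finite :=
  Q240.LD.zs_fin P hP S c a T ha

/-- The sets of zeros that are counted are finite. -/
theorem finite_right (σ T : ℝ) :
    {s : ℂ | riemannZeta s = 0 ∧ σ ≤ s.re ∧ 0 < s.im ∧ s.im ≤ T}.Finite :=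
  DH31.zeros_finite σ T

theorem result :
    (∀ (P : ℂ[X]) (S : Finset ℝ) (c : ℝ → ℂ), P ≠ 0 →
      (DensityHypothesis ↔ Estimate (F P S c) fun α => 2 * α)) ∧
    (∀ (P Q : ℂ[X]) (S R : Finset ℝ) (c d : ℝ → ℂ) (α ε : ℝ), P ≠ 0 → Q ≠ 0 → α ≤ 1 / 2 → 0 < ε →
      ∃ C K : ℝ, 0 < C ∧ 0 < K ∧ ∀ T : ℝ, 2 ≤ T →
        (left (F P S c) (α - ε) T : ℝ) ≤ K * Real.log T * (left (F Q R d) α (T + C) + 1)) ∧
    (∀ (P Q : ℂ[X]) (S R : Finset ℝ) (c d : ℝ → ℂ) (A : ℝ → ℝ), P ≠ 0 → Q ≠ 0 →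
      ContinuousOn A (Set.Icc 0 (1 / 2)) → (∀ x ∈ Set.Icc (0 : ℝ) (1 / 2), 0 ≤ A x) → 1 ≤ A (1 / 2) →
      (Estimate (F P S c) A ↔ Estimate (F Q R d) A)) :=
  ⟨fun P S c hP => Q240.LD.dh_iff P hP S c,
    fun P Q S R c d α ε hP hQ hα hε => Q240.LD.compare P Q hP hQ S R c d α ε hε hα,
    fun P Q S R c d A hP hQ hA hA0 hA1 => ⟨Q240.LD.dens_pass Q P hQ hP R S d c A hA hA0 hA1,
      Q240.LD.dens_pass P Q hP hQ S R c d A hA hA0 hA1⟩⟩

end Pool.Agent.Results.MP_4467b5_nt.LeftDensity
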